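import Pool.Agent.MQG.StmtsA

/-!
# Squad MQG (MP_a4f485_an), rows BPR and AMU
-/

set_option autoImplicit false

namespace Pool.Agent.MQG.H29B

open scoped InnerProductSpace InnerProduct Topology ComplexConjugate
open Complex Filter Pool.Agent.MQG

variable {α β γ κ ι : Type}

theorem norm_co12_le (X : Op (α × β × γ)) (ζ ζ' : L2 (α × β)) :
    ‖co12 X ζ ζ'‖ ≤ ‖X‖ * ‖ζ‖ * ‖ζ'‖ := by
  unfold co12
  refine (ContinuousLinearMap.opNorm_comp_le _ _).trans ?_
  have h2 : ‖X ∘L emb' e12 ζ'‖ ≤ ‖X‖ * ‖ζ'‖ :=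
    (ContinuousLinearMap.opNorm_comp_le _ _).trans
      (mul_le_mul_of_nonneg_left (norm_emb'_le _ _) (norm_nonneg _))
  calc _ ≤ ‖ζ‖ * (‖X‖ * ‖ζ'‖) :=
        mul_le_mul (norm_emb'_adj_le _ _) h2 (norm_nonneg _) (norm_nonneg _)
    _ = ‖X‖ * ‖ζ‖ * ‖ζ'‖ := by ring

/-- `co12` as a bounded sesquilinear map -/
noncomputable def co12L (X : Op (α × β × γ)) : L2 (α × β) →L⋆[ℂ] L2 (α × β) →L[ℂ] Op γ :=
  LinearMap.mkContinuous₂
    (LinearMap.mk₂'ₛₗ (starRingEnd ℂ) (RingHom.id ℂ) (fun x z => co12 X x z)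
      (fun x x' z => by simp [co12, emb'_add, ContinuousLinearMap.add_comp])
      (fun r x z => by simp only [co12, emb'_smul, map_smulₛₗ, ContinuousLinearMap.smul_comp])
      (fun x z z' => by simp [co12, emb'_add, ContinuousLinearMap.comp_add])
      (fun r x z => by simp only [co12, emb'_smul, ContinuousLinearMap.comp_smul, RingHom.id_apply]))
    ‖X‖ (fun u y => norm_co12_le X u y)

theorem co12L_apply (X : Op (α × β × γ)) (x z : L2 (α × β)) : co12L X x z = co12 X x z := rfl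

theorem co12_mem {P : Submodule ℂ (Op γ)} (hP : IsClosed (P : Set (Op γ))) (X : Op (α × β × γ))
    (h : ∀ x z h h', co12 X (tn x h) (tn z h') ∈ P) (ζ ζ' : L2 (α × β)) : co12 X ζ ζ' ∈ P := by
  refine total_tn.sesq_mem total_tn (co12L X) P hP ?_ ζ ζ'
  rintro _ ⟨x, h₁, rfl⟩ _ ⟨z, h₂, rfl⟩
  exact h x z h₁ h₂

/-- row BPR -/
theorem bpr (key : KeyStmt) (haw : HawStmt) : BprStmt := by
  intro ι M
  have hA : Adapted M.W M.W := ⟨M.W_unitary, M.pentagon⟩
  have hk := key ι M ι M.W (cj M.Wt) hA (haw ι M)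
  set Wh : Op (ι × ι) := cj M.Wt with hWh
  have hWu : Wh ∈ unitary (Op (ι × ι)) := cj_unitary M.Wt_unitary
  rw [Unitary.mem_iff] at hWu
  have hTu := M.Wt_unitary
  rw [Unitary.mem_iff] at hTu
  have a1 : (l23 (star M.Wt) * l23 M.Wt : Op (ι × ι × ι)) = 1 := by
    rw [← l23_mul, hTu.1, l23_one]
  have a2 : (l23 M.Wt * l23 (star M.Wt) : Op (ι × ι × ι)) = 1 := by
    rw [← l23_mul, hTu.2, l23_one]
  have b2 : (l12 Wh * l12 (star Wh) : Op (ι × ι × ι)) = 1 := by
    rw [← l12_mul, hWu.2, l12_one]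
  have hX : (l23 (star M.Wt) * l13 M.W : Op (ι × ι × ι)) =
      l12 Wh * l23 (star M.Wt) * l12 (star Wh) := by
    calc (l23 (star M.Wt) * l13 M.W : Op (ι × ι × ι))
        = l23 (star M.Wt) * l13 M.W * (l12 Wh * (l23 M.Wt * l23 (star M.Wt)) * l12 (star Wh)) := by
          rw [a2, mul_one, b2, mul_one]
      _ = l23 (star M.Wt) * (l13 M.W * l12 Wh * l23 M.Wt) * (l23 (star M.Wt) * l12 (star Wh)) := by
          simp only [mul_assoc]
      _ = l23 (star M.Wt) * (l23 M.Wt * l12 Wh) * (l23 (star M.Wt) * l12 (star Wh)) := by rw [hk]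
      _ = (l23 (star M.Wt) * l23 M.Wt) * l12 Wh * (l23 (star M.Wt) * l12 (star Wh)) := by
          simp only [mul_assoc]
      _ = l12 Wh * l23 (star M.Wt) * l12 (star Wh) := by
          rw [a1, one_mul, mul_assoc]
  have hprod : ∀ x z h h', co12 (l23 (star M.Wt) * l13 M.W : Op (ι × ι × ι)) (tn x h) (tn z h') =
      co (star M.Wt) h h' * co M.W x z := fun x z h h' => co12_l23_mul_l13 _ _ _ _ _ _
  have hco : ∀ ζ ζ', co12 (l23 (star M.Wt) * l13 M.W : Op (ι × ι × ι)) ζ ζ' =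
      co12 (l23 (star M.Wt)) (star Wh ζ) (star Wh ζ') := by
    intro ζ ζ'
    rw [hX, co12_l12_mul]
  constructor
  · intro h h' x z
    rw [← hprod, hco]
    refine co12_mem (Submodule.isClosed_topologicalClosure _) _ ?_ _ _
    intro x z h h'
    rw [co12_l23]
    exact Submodule.smul_mem _ _ (Submodule.le_topologicalClosure _
      (Submodule.subset_span ⟨h, h', rfl⟩))
  · intro p q
    rcases isEmpty_or_nonempty ι with hι | hι
    · have : co (star M.Wt) p q = 0 := by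
        refine ContinuousLinearMap.ext fun y => ?_
        exact Subsingleton.elim _ _
      rw [this]
      exact Submodule.zero_mem _
    classical
    obtain ⟨b⟩ := hι
    set e : L2 ι := lp.single 2 b 1 with he
    have he1 : ⟪e, e⟫_ℂ = 1 := by
      rw [he, lp.inner_single_left]
      simp
    have h1 : co (star M.Wt) p q = co12 (l23 (star M.Wt) * l13 M.W : Op (ι × ι × ι))
        (Wh (tn e p)) (Wh (tn e q)) := by
      have h2 : ∀ ζ, star Wh (Wh ζ) = ζ := by
        intro ζ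
        have := DFunLike.congr_fun hWu.1 ζ
        exact this
      rw [hco, h2, h2, co12_l23, he1, one_smul]
    rw [h1]
    refine co12_mem (Submodule.isClosed_topologicalClosure _) _ ?_ _ _
    intro x z h h'
    rw [hprod]
    exact Submodule.le_topologicalClosure _ (Submodule.subset_span ⟨h, h', x, z, rfl⟩)

/-- the operators `a` with `T col a h ∈ Cols U` form a closed subspace -/
theorem amu_core (U T : Op (κ × ι)) (h : L2 ι) (P : Set (Op κ))
    (hP : ∀ a ∈ P, T ∘L col a h ∈ Cols U) :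
    ∀ a ∈ (Submodule.span ℂ P).topologicalClosure, T ∘L col a h ∈ Cols U := by
  let F : Op κ →L[ℂ] (L2 κ →L[ℂ] L2 (κ × ι)) :=
    ContinuousLinearMap.compL ℂ (L2 κ) (L2 κ) (L2 (κ × ι)) (T ∘L emb (Equiv.refl (κ × ι)) h)
  have hF : ∀ a, F a = T ∘L col a h := fun a => rfl
  have h1 : (Submodule.span ℂ P).topologicalClosure ≤ (Cols U).comap (F : Op κ →ₗ[ℂ] _) := by
    refine Submodule.topologicalClosure_minimal _ ?_ ?_
    · rw [Submodule.span_le]
      intro a ha
      exact hP a ha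
    · exact (Submodule.isClosed_topologicalClosure _).preimage F.continuous
  intro a ha
  exact h1 ha

/-- row AMU -/
theorem amu (hte : HteStmt) (mua : MuaStmt) (mub : MubStmt) (asx : AsxStmt) : AmuStmt := by
  intro ι M κ U hA a ha h
  obtain ⟨Uh, -, hUh⟩ := hte ι M κ U hA
  obtain ⟨x1, x2, x3, -⟩ := asx ι M κ U Uh hA hUh
  have ha' := (x1 a).mp ha
  have tot : Total {ξ : L2 ι | ∃ f, Traj M.V f ∧ ξ = f 0} := total_traj M.V_group 0
  constructor
  · rw [← x3] at ha'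
    refine amu_core U U h {S | ∃ u y, S = sl Uh u y} ?_ a ha'
    rintro _ ⟨u, y, rfl⟩
    let F : Op κ →L[ℂ] (L2 κ →L[ℂ] L2 (κ × ι)) :=
      ContinuousLinearMap.compL ℂ (L2 κ) (L2 κ) (L2 (κ × ι)) (U ∘L emb (Equiv.refl (κ × ι)) h)
    have h2 := sl_mem_of_total (total_star tot) (total_star tot) Uh
      ((Cols U).comap (F : Op κ →ₗ[ℂ] (L2 κ →L[ℂ] L2 (κ × ι))))
      ((Submodule.isClosed_topologicalClosure _).preimage F.continuous) (by
        rintro _ ⟨_, ⟨g, hg, rfl⟩, rfl⟩ _ ⟨_, ⟨b, hb, rfl⟩, rfl⟩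
        exact mua ι M κ U Uh hA hUh g b h hg hb) u y
    exact h2
  · rw [← x2] at ha'
    refine amu_core U (star U) h {S | ∃ u y, S = sl (star U) u y} ?_ a ha'
    rintro _ ⟨u, y, rfl⟩
    let F : Op κ →L[ℂ] (L2 κ →L[ℂ] L2 (κ × ι)) :=
      ContinuousLinearMap.compL ℂ (L2 κ) (L2 κ) (L2 (κ × ι))
        (star U ∘L emb (Equiv.refl (κ × ι)) h)
    have h2 := sl_mem_of_total tot tot (star U)
      ((Cols U).comap (F : Op κ →ₗ[ℂ] (L2 κ →L[ℂ] L2 (κ × ι))))
      ((Submodule.isClosed_topologicalClosure _).preimage F.continuous) (by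
        rintro _ ⟨g, hg, rfl⟩ _ ⟨b, hb, rfl⟩
        exact mub ι M κ U Uh hA hUh g b h hg hb) u y
    exact h2

end Pool.Agent.MQG.H29B
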