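import Pool.Agent.MQG.StmtsB

/-!
# Squad MQG (MP_a4f485_an), rows RBD and LLE
-/

set_option autoImplicit false

namespace Pool.Agent.MQG.H29

open scoped InnerProductSpace InnerProduct Topology
open Complex Filter Pool.Agent.MQG

variable {κ ι : Type}

theorem norm_emb'_le' {α β γ : Type} (e : γ ≃ α × β) (ξ : L2 α) : ‖emb' e ξ‖ ≤ ‖ξ‖ :=
  LinearMap.mkContinuous_norm_le _ (norm_nonneg _) _

theorem norm_co_le (U : Op (κ × ι)) (x z : L2 κ) : ‖co U x z‖ ≤ ‖U‖ * ‖x‖ * ‖z‖ := by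
  unfold co
  refine (ContinuousLinearMap.opNorm_comp_le _ _).trans ?_
  have h1 : ‖(emb' (Equiv.refl (κ × ι)) x)†‖ ≤ ‖x‖ := by
    rw [LinearIsometryEquiv.norm_map]
    exact norm_emb'_le' _ _
  have h2 : ‖U ∘L emb' (Equiv.refl (κ × ι)) z‖ ≤ ‖U‖ * ‖z‖ :=
    (ContinuousLinearMap.opNorm_comp_le _ _).trans
      (mul_le_mul_of_nonneg_left (norm_emb'_le' _ _) (norm_nonneg _))
  calc _ ≤ ‖x‖ * (‖U‖ * ‖z‖) := mul_le_mul h1 h2 (norm_nonneg _) (norm_nonneg _)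
    _ = ‖U‖ * ‖x‖ * ‖z‖ := by ring

/-- a bound for the norm of an operator from its form -/
theorem norm_le_of_form {T : Op κ} {K : ℝ} (hK : 0 ≤ K)
    (h : ∀ x z : L2 κ, ‖⟪x, T z⟫_ℂ‖ ≤ K * ‖x‖ * ‖z‖) : ‖T‖ ≤ K := by
  refine ContinuousLinearMap.opNorm_le_bound _ hK fun z => ?_
  have h1 := h (T z) z
  rw [inner_self_eq_norm_sq_to_K] at h1
  have h2 : ‖((‖T z‖ : ℂ)) ^ 2‖ = ‖T z‖ ^ 2 := by
    rw [norm_pow, Complex.norm_real, norm_norm]
  have h3 : ‖T z‖ ^ 2 ≤ K * ‖T z‖ * ‖z‖ := by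
    rw [← h2]
    exact h1
  by_cases h0 : ‖T z‖ = 0
  · rw [h0]
    positivity
  · have h4 : 0 < ‖T z‖ := lt_of_le_of_ne (norm_nonneg _) (Ne.symm h0)
    have h5 : ‖T z‖ * ‖T z‖ ≤ (K * ‖z‖) * ‖T z‖ := by
      calc ‖T z‖ * ‖T z‖ = ‖T z‖ ^ 2 := by ring
        _ ≤ K * ‖T z‖ * ‖z‖ := h3
        _ = _ := by ring
    exact le_of_mul_le_mul_right h5 h4

theorem inner_star_left' (T : Op ι) (u y : L2 ι) : ⟪star T u, y⟫_ℂ = ⟪u, T y⟫_ℂ := by
  rw [ContinuousLinearMap.star_eq_adjoint, ContinuousLinearMap.adjoint_inner_left]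

theorem inner_sl_co (U : Op (κ × ι)) (u y : L2 ι) (x z : L2 κ) :
    ⟪x, sl U u y z⟫_ℂ = ⟪u, co U x z y⟫_ℂ := by
  rw [inner_sl, inner_co]

/-- the form of a sum of slices -/
theorem inner_val_sum (U : Op (κ × ι)) (n : ℕ) (c : Fin n → ℂ) (u y : Fin n → L2 ι) (x z : L2 κ) :
    ⟪x, val (∑ j, c j • asl U (u j) (y j)) z⟫_ℂ = ∑ j, c j * ⟪u j, co U x z (y j)⟫_ℂ := by
  rw [map_sum, sum_apply, inner_sum]
  refine Finset.sum_congr rfl fun j _ => ?_
  rw [map_smul, val_asl, smul_apply, inner_smul_right, inner_sl_co]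

/-- row RBD -/
theorem rbd (pra : PraStmt) (prc : PrcStmt) : RbdStmt := by
  intro ι κ W WW hU ν n c u y
  obtain ⟨Φ, hΦ⟩ := hU.lift (κ × κ) (pr WW WW) (pra ι κ κ W WW WW hU.adapted hU.adapted)
  have hΦn : ‖Φ (∑ j, c j • asl WW (u j) (y j))‖ ≤ ‖∑ j, c j • asl WW (u j) (y j)‖ :=
    NonUnitalStarAlgHom.norm_apply_le Φ _
  have hform : ∀ x x' z z' : L2 κ, ⟪tn x x', Φ (∑ j, c j • asl WW (u j) (y j)) (tn z z')⟫_ℂ =
      ∑ j, c j * ⟪u j, co WW x z (co WW x' z' (y j))⟫_ℂ := by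
    intro x x' z z'
    rw [map_sum, sum_apply, inner_sum]
    refine Finset.sum_congr rfl fun j _ => ?_
    rw [map_smul, hΦ, smul_apply, inner_smul_right, inner_sl_co, prc]
    rfl
  have hfin : ∀ (b : Al WW) (x z : L2 κ), ‖b‖ ≤ ‖∑ j, c j • asl WW (u j) (y j)‖ * ‖x‖ * ‖z‖ →
      ‖ν b‖ ≤ ‖ν‖ * ‖∑ j, c j • asl WW (u j) (y j)‖ * ‖x‖ * ‖z‖ := by
    intro b x z hb
    calc ‖ν b‖ ≤ ‖ν‖ * ‖b‖ := ν.le_opNorm b
      _ ≤ ‖ν‖ * (‖∑ j, c j • asl WW (u j) (y j)‖ * ‖x‖ * ‖z‖) :=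
        mul_le_mul_of_nonneg_left hb (norm_nonneg _)
      _ = _ := by ring
  constructor
  · rw [← norm_val]
    refine norm_le_of_form (by positivity) fun x z => ?_
    have h1 : ⟪x, val (∑ j, c j • asl WW (u j) (lam WW ν (y j))) z⟫_ℂ =
        ν (∑ j, c j • asl WW (star (co WW x z) (u j)) (y j)) := by
      rw [inner_val_sum, map_sum]
      refine Finset.sum_congr rfl fun j _ => ?_
      rw [map_smul, smul_eq_mul, ← inner_lam, inner_star_left']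
    rw [h1]
    refine hfin _ x z ?_
    have h2 : val (∑ j, c j • asl WW (star (co WW x z) (u j)) (y j)) =
        co (Φ (∑ j, c j • asl WW (u j) (y j))) x z := by
      refine ContinuousLinearMap.ext fun k' => ext_inner_left ℂ fun k => ?_
      rw [inner_val_sum, inner_co, hform]
      refine Finset.sum_congr rfl fun j _ => ?_
      rw [inner_star_left']
    rw [← norm_val, h2]
    refine (norm_co_le _ _ _).trans ?_
    gcongr
  · rw [← norm_val]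
    refine norm_le_of_form (by positivity) fun x z => ?_
    have h1 : ⟪x, val (∑ j, c j • asl WW (star (lam WW ν) (u j)) (y j)) z⟫_ℂ =
        ν (∑ j, c j • asl WW (u j) (co WW x z (y j))) := by
      rw [inner_val_sum, map_sum]
      refine Finset.sum_congr rfl fun j _ => ?_
      rw [map_smul, smul_eq_mul, ← inner_lam, inner_star_left']
    rw [h1]
    refine hfin _ x z ?_
    have h2 : val (∑ j, c j • asl WW (u j) (co WW x z (y j))) =
        sl (Φ (∑ j, c j • asl WW (u j) (y j))) x z := by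
      refine ContinuousLinearMap.ext fun k' => ext_inner_left ℂ fun k => ?_
      rw [inner_val_sum, inner_sl, hform]
    rw [← norm_val, h2]
    refine (norm_sl_le _ _ _).trans ?_
    gcongr

/-- `lam` is injective -/
theorem lam_inj (dns : DnsStmt) (M : MU ι) {WW : Op (κ × ι)} (hU : Universal M.W WW)
    {ρ ρ' : Du WW} (h : lam WW ρ = lam WW ρ') : ρ = ρ' := by
  refine ContinuousLinearMap.ext_on (dns ι M κ WW hU.adapted) ?_
  rintro _ ⟨u, y, rfl⟩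
  rw [← inner_lam, ← inner_lam, h]

/-- row LLE -/
theorem lle (dns : DnsStmt) (stu : StuStmt) (rlx : RlxStmt) (lfv : LfvStmt) (lpr : LprStmt) :
    LleStmt := by
  intro ι M κ WW hU μ ω ρ hμ hω hρ
  obtain ⟨-, L, -, hL⟩ := rlx ι M κ WW hU μ
  have key : ∀ ω : Du WW, lam WW (ω ∘L L) = lam WW μ * lam WW ω := by
    intro ω
    refine ContinuousLinearMap.ext fun y => ext_inner_left ℂ fun u => ?_
    rw [inner_lam, ContinuousLinearMap.comp_apply, hL, ← inner_lam, inner_star_left']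
    rfl
  have h1 : ρ = ω ∘L L := lam_inj dns M hU (hρ.trans (key ω).symm)
  rw [h1]
  -- the map `ω ↦ ω ∘ L`
  let F : Du WW →L[ℂ] Du WW := (ContinuousLinearMap.compL ℂ (Al WW) (Al WW) ℂ).flip L
  have hF : ∀ ω : Du WW, F ω = ω ∘L L := fun ω => rfl
  have h2 : L1 M.W WW ≤ (L1 M.W WW).comap (F : Du WW →ₗ[ℂ] Du WW) := by
    refine Submodule.topologicalClosure_minimal _ ?_ ?_
    · rw [Submodule.span_le]
      rintro ω' ⟨Λ, hΛ, x, z, hω'⟩
      obtain ⟨κ', U, ξ, hA, -, hξ⟩ := stu ι M κ WW hU μ hμ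
      obtain ⟨ρ', hρ', hρ''⟩ := lfv ι M.W κ WW Λ hΛ κ' (U (tn ξ x)) (U (tn ξ z))
      have h3 := lpr ι M.W κ WW Λ hΛ κ' U hA ξ ξ x z ω' ρ' hω' hρ''
      rw [← hξ] at h3
      have h4 : F ω' = ρ' := lam_inj dns M hU (by rw [hF, key, h3])
      show F ω' ∈ L1 M.W WW
      rw [h4]
      exact hρ'
    · exact (Submodule.isClosed_topologicalClosure _).preimage F.continuous
  have h5 := h2 hω
  exact h5

end Pool.Agent.MQG.H29
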